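import Mathlib

/-! Realisable Laplacian spectra: the notions in the statement. -/

open MeasureTheory Polynomial

namespace Pool.Agent.Lib.MP_14e6e2_co

variable {V : Type} [Fintype V] [DecidableEq V]

/-- The simplex of nonnegative `m`-tuples with sum one. -/
def simplex (m : ℕ) : Set (EuclideanSpace ℝ (Fin m)) := {l | (∀ i, 0 ≤ l i) ∧ ∑ i, l i = 1}

/-- The points of the simplex that, together with `0`, are the eigenvalues (with multiplicity) of
the Laplacian of a nonnegative weighting of the edges of `G`. -/
def realizable (G : SimpleGraph V) (m : ℕ) : Set (EuclideanSpace ℝ (Fin m)) :=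
  {l | l ∈ simplex m ∧ ∃ w : Matrix V V ℝ, (∀ u v, 0 ≤ w u v) ∧ (∀ u v, w u v = w v u) ∧
    (∀ u v, ¬ G.Adj u v → w u v = 0) ∧
    (Matrix.diagonal (fun u => ∑ v, w u v) - w).charpoly = X * ∏ i, (X - C (l i))}

/-- The proportion of the simplex that is realisable, for the Hausdorff measure. -/
noncomputable def prop (G : SimpleGraph V) : ℝ :=
  (μH[(Fintype.card V - 2 : ℕ)] (realizable G (Fintype.card V - 1))).toReal /
    (μH[(Fintype.card V - 2 : ℕ)] (simplex (Fintype.card V - 1))).toReal

/-- The suspension: one new vertex, joined to every vertex of `G`. -/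
def susp (G : SimpleGraph V) : SimpleGraph (Option V) :=
  SimpleGraph.fromRel fun a b => a = none ∨ ∃ u v, a = some u ∧ b = some v ∧ G.Adj u v

end Pool.Agent.Lib.MP_14e6e2_co
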