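import Pool.Agent.Lib.MP_14e6e2_co.Ray

/-! A fractional assignment of the points of the orthant to the pyramids. -/

open MeasureTheory Set
open scoped ENNReal

namespace Pool.Agent.Lib.MP_14e6e2_co

noncomputable def mn {m : ℕ} (x : Fin m → ℝ) : ℝ := ⨅ i, x i

theorem mn_le {m : ℕ} (x : Fin m → ℝ) (i : Fin m) : mn x ≤ x i :=
  ciInf_le (Finite.bddBelow_range x) i

theorem mn_eq {m : ℕ} (x : Fin m → ℝ) (i : Fin m) (h : ∀ j, x i ≤ x j) : mn x = x i :=
  le_antisymm (mn_le x i) (haveI : Nonempty (Fin m) := ⟨i⟩; le_ciInf h)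

theorem meas_mn {m : ℕ} : Measurable (mn (m := m)) :=
  Measurable.iInf fun i => measurable_pi_apply i

section
variable {m : ℕ} (M β θ L : ℝ)

noncomputable def tm (x : Fin m → ℝ) (j : Fin m) : ℝ := er θ (x j - mn x) (M * mn x)

noncomputable def HH (x : Fin m → ℝ) : ℝ :=
  Real.exp (-(θ * (M * mn x))) + β * ∑ j, tm M θ x j

open Classical in
noncomputable def om (x : Fin m → ℝ) (k : Fin m) : ℝ :=
  if ∀ j, j ≠ k → x k < x j then Real.exp (-(θ * (M * mn x))) else β * tm M θ x k

noncomputable def pp (x : Fin m → ℝ) (k : Fin m) : ℝ :=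
  if M * mn x ≤ L then om M β θ x k * Real.exp (M * mn x) *
    max 0 (2 - Real.exp (M * mn x) * HH M β θ x) else 0

noncomputable def Fh (y : Fin m → ℝ) (v : ℝ) : ℝ :=
  2 * er 1 0 v - 2 * Real.exp (-L) * er 1 L v - er θ 0 v -
    β * ∑ i, er θ (max (y i - mn y) ((M + 1) * y i / (M + 2))) v -
    β * (Icc 0 L).indicator (fun _ => (1 : ℝ)) v

theorem meas_tm (j : Fin m) : Measurable fun x : Fin m → ℝ => tm M θ x j :=
  (meas_er θ).comp (f := fun x : Fin m → ℝ => (x j - mn x, M * mn x))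
    (((measurable_pi_apply j).sub meas_mn).prodMk (meas_mn.const_mul M))

theorem meas_pp (k : Fin m) : Measurable fun x : Fin m → ℝ => pp M β θ L x k := by
  have h1 : Measurable fun x : Fin m → ℝ => M * mn x := meas_mn.const_mul M
  have h2 : Measurable fun x : Fin m → ℝ => Real.exp (-(θ * (M * mn x))) :=
    (h1.const_mul θ).neg.exp
  have h3 : MeasurableSet {x : Fin m → ℝ | ∀ j, j ≠ k → x k < x j} := by
    simp only [ofPred_forall]
    exact MeasurableSet.iInter fun j => MeasurableSet.iInter fun _ =>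
      measurableSet_lt (measurable_pi_apply k) (measurable_pi_apply j)
  refine Measurable.ite (measurableSet_le h1 measurable_const) ?_ measurable_const
  refine ((Measurable.ite h3 h2 ((meas_tm M θ k).const_mul β)).mul h1.exp).mul
    (measurable_const.max (measurable_const.sub (h1.exp.mul (h2.add ?_))))
  exact (Finset.measurable_sum _ fun j _ => meas_tm M θ j).const_mul β

variable {M β θ L}

theorem om_nonneg (hβ : 0 ≤ β) (x : Fin m → ℝ) (k : Fin m) : 0 ≤ om M β θ x k := by
  unfold om; split_ifs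
  · positivity
  · exact mul_nonneg hβ (er_nonneg _ _ _)

theorem pp_nonneg (hβ : 0 ≤ β) (x : Fin m → ℝ) (k : Fin m) : 0 ≤ pp M β θ L x k := by
  unfold pp; split_ifs
  · exact mul_nonneg (mul_nonneg (om_nonneg hβ x k) (Real.exp_pos _).le) (le_max_left _ _)
  · exact le_rfl

theorem sum_om (hβ : 0 ≤ β) (x : Fin m → ℝ) : ∑ k, om M β θ x k ≤ HH M β θ x := by
  have ht : ∀ k, 0 ≤ β * tm M θ x k := fun k => mul_nonneg hβ (er_nonneg _ _ _)
  rw [HH, Finset.mul_sum]
  by_cases h : ∃ k, ∀ j, j ≠ k → x k < x j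
  · obtain ⟨k, hk⟩ := h
    rw [← Finset.add_sum_erase _ _ (Finset.mem_univ k), om, if_pos hk]
    refine add_le_add le_rfl (le_trans (Finset.sum_le_sum fun j hj => ?_)
      (Finset.sum_le_sum_of_subset_of_nonneg (Finset.erase_subset k _) fun j _ _ => ht j))
    have hjk := Finset.ne_of_mem_erase hj
    rw [om, if_neg fun hh => (hk j hjk).not_gt (hh k hjk.symm)]
  · refine le_add_of_nonneg_of_le (Real.exp_pos _).le (Finset.sum_le_sum fun j _ => ?_)
    rw [om, if_neg fun hh => h ⟨j, hh⟩]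

theorem sum_pp (hβ : 0 ≤ β) (x : Fin m → ℝ) : ∑ k, pp M β θ L x k ≤ 1 := by
  unfold pp
  split_ifs
  · rw [← Finset.sum_mul, ← Finset.sum_mul]
    have h1 := sum_om (M := M) (θ := θ) hβ x
    have h0 : 0 ≤ ∑ k, om M β θ x k := Finset.sum_nonneg fun k _ => om_nonneg hβ x k
    have he := Real.exp_pos (M * mn x)
    generalize Real.exp (M * mn x) = e at *
    generalize HH M β θ x = H at *
    generalize ∑ k, om M β θ x k = S at *
    calc S * e * max 0 (2 - e * H) ≤ H * e * max 0 (2 - e * H) := by gcongr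
      _ ≤ 1 := by
        rcases le_total 0 (2 - e * H) with h | h
        · rw [max_eq_right h]; nlinarith [sq_nonneg (e * H - 1)]
        · rw [max_eq_left h]; simp
  · simp

theorem hi_Fh (hθ : 0 < θ) (hL : 0 ≤ L) (y : Fin m → ℝ) : HI (Fh M β θ L y)
    (2 * (1 / 1) - 2 * Real.exp (-L) * (1 / 1) - 1 / θ - β * (m * (1 / θ)) - β * L) :=
  (((((hi_er one_pos 0).mul 2).sub ((hi_er one_pos L).mul _)).sub (hi_er hθ 0)).sub
    ((HI.sum fun _ => hi_er hθ _).mul β)).sub ((hi_ind hL).mul β)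

theorem Fh_le (hβ : 0 ≤ β) (y : Fin m → ℝ) (v : ℝ) :
    Fh M β θ L y v ≤ 2 * er 1 0 v - 2 * Real.exp (-L) * er 1 L v := by
  have h1 := er_nonneg θ 0 v
  have h2 : 0 ≤ β * ∑ i, er θ (max (y i - mn y) ((M + 1) * y i / (M + 2))) v :=
    mul_nonneg hβ (Finset.sum_nonneg fun i _ => er_nonneg _ _ _)
  have h3 : 0 ≤ β * (Icc 0 L).indicator (fun _ => (1 : ℝ)) v :=
    mul_nonneg hβ (indicator_nonneg (fun _ _ => zero_le_one) v)
  unfold Fh; linarith

theorem Fh_neg (hβ : 0 ≤ β) (y : Fin m → ℝ) {v : ℝ} (hv : v < 0) : Fh M β θ L y v ≤ 0 := by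
  refine (Fh_le hβ y v).trans ?_
  have := mul_nonneg (Real.exp_pos (-L)).le (er_nonneg 1 L v)
  rw [er, if_neg hv.not_ge]; linarith

theorem Fh_bound (hβ : 0 ≤ β) (hθ : 0 ≤ θ) (hL : 0 ≤ L) (x : Fin (m + 1) → ℝ) (k : Fin (m + 1))
    (y : Fin m → ℝ) {v κ s : ℝ} (hκ : 0 ≤ κ) (hv : M * mn x = v) (h0 : 0 ≤ v)
    (h1 : ∀ i, x (k.succAbove i) - mn x ≤ v → max (y i - mn y) ((M + 1) * y i / (M + 2)) ≤ v ∧
      x (k.succAbove i) - mn x ≤ max (y i - mn y) ((M + 1) * y i / (M + 2)))
    (h2 : om M β θ x k * Real.exp v * Real.exp (-(θ * s)) = κ * Real.exp (-v)) :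
    κ * Fh M β θ L y v ≤ pp M β θ L x k * Real.exp (-(θ * s)) := by
  rw [pp, hv]
  split_ifs with hvL
  · rw [mul_right_comm, h2, mul_assoc]
    refine mul_le_mul_of_nonneg_left ?_ hκ
    refine le_trans ?_ (mul_le_mul_of_nonneg_left (le_max_right _ _) (Real.exp_pos _).le)
    rw [mul_sub, ← mul_assoc, ← Real.exp_add, neg_add_cancel, Real.exp_zero, one_mul, HH, hv,
      k.sum_univ_succAbove, Fh, indicator_of_mem (show v ∈ Icc 0 L from ⟨h0, hvL⟩)]
    have a1 : er 1 0 v = Real.exp (-v) := by simp [er, h0]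
    have a2 : er θ 0 v = Real.exp (-(θ * v)) := by simp [er, h0]
    have a3 := mul_nonneg (Real.exp_pos (-L)).le (er_nonneg 1 L v)
    have a4 : tm M θ x k ≤ 1 := er_le_one hθ _ _
    have a5 : ∑ i, tm M θ x (k.succAbove i) ≤
        ∑ i, er θ (max (y i - mn y) ((M + 1) * y i / (M + 2))) v :=
      Finset.sum_le_sum fun i _ => by rw [tm, hv]; exact er_mono hθ (h1 i)
    have a6 := mul_le_mul_of_nonneg_left (add_le_add a4 a5) hβ
    rw [a1, a2]; linarith
  · rw [zero_mul]
    refine mul_nonpos_of_nonneg_of_nonpos hκ ((Fh_le hβ y v).trans ?_)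
    rw [er, er, if_pos h0, if_pos (not_le.1 hvL).le, mul_assoc, ← Real.exp_add]
    rw [show -L + -(1 * (v - L)) = -(1 * (v - 0)) by ring]; simp

theorem ray_pt (hM : 0 < M) (hβ : β * (M + 1) = 1) (hθ : θ = 2 * M * β) (hL : 0 ≤ L)
    (k : Fin (m + 2)) (y : Fin (m + 1) → ℝ) (hy : ∀ i, 0 ≤ y i) {s : ℝ} (hs : 0 ≤ s) :
    (if s < (M + 1) * mn y / M then ENNReal.ofReal (Fh M β θ L y (M * s))
      else ENNReal.ofReal β * ENNReal.ofReal (Fh M β θ L y (M * mn y + M * β * s))) ≤
    ENNReal.ofReal (pp M β θ L (Fin.insertNth k s fun i => y i + β * s) k *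
      Real.exp (-(θ * s))) := by
  have b0 : 0 < β := by
    by_contra h
    nlinarith
  have t0 : 0 ≤ θ := by rw [hθ]; positivity
  obtain ⟨i0, hi0⟩ : ∃ i, y i = mn y := exists_eq_ciInf_of_finite
  have m0 : 0 ≤ mn y := hi0 ▸ hy i0
  set x : Fin (m + 2) → ℝ := Fin.insertNth k s fun i => y i + β * s with hx
  have xk : x k = s := by simp [hx]
  have xi : ∀ i, x (k.succAbove i) = y i + β * s := fun i => by simp [hx]
  have hM2 : 0 < M + 2 := by linarith
  have eβ : β * M = 1 - β := by linarith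
  split_ifs with h
  · rw [lt_div_iff₀ hM] at h
    have c1 : s < mn y + β * s := by
      have := mul_lt_mul_of_pos_left h b0
      rw [← mul_assoc β (M + 1), hβ, mul_comm s, ← mul_assoc, eβ] at this
      linarith
    have c2 : ∀ j, j ≠ k → x k < x j := by
      intro j hj
      obtain ⟨i, rfl⟩ := Fin.exists_succAbove_eq hj
      rw [xk, xi]; linarith [mn_le y i]
    have c3 : mn x = s := by
      rw [← xk]
      refine mn_eq x k fun j => ?_
      by_cases hj : j = k
      · rw [hj]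
      · exact (c2 j hj).le
    refine ENNReal.ofReal_le_ofReal ?_
    rw [← one_mul (Fh M β θ L y (M * s))]
    refine Fh_bound b0.le t0 hL x k y zero_le_one (by rw [c3]) (by positivity) (fun i hi => ?_) ?_
    · rw [xi, c3] at hi ⊢
      have d1 : (M + 1) * y i ≤ M * s * (M + 2) := by
        have := mul_le_mul_of_nonneg_left hi (by linarith : 0 ≤ M + 1)
        have e : (M + 1) * (β * s) = s := by rw [← mul_assoc, mul_comm (M + 1), hβ, one_mul]
        nlinarith
      refine ⟨max_le (by linarith) ((div_le_iff₀ hM2).2 d1), le_max_of_le_right ?_⟩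
      rw [le_div_iff₀ hM2]
      have := mul_le_mul_of_nonneg_left d1 b0.le
      have e1 : β * ((M + 1) * y i) = y i := by rw [← mul_assoc, hβ, one_mul]
      have e2 : β * (M * s * (M + 2)) = (s - β * s) * (M + 2) := by
        rw [← mul_assoc, ← mul_assoc, eβ]; ring
      rw [e1, e2] at this
      nlinarith
    · rw [om, if_pos c2, c3, ← Real.exp_add, ← Real.exp_add, one_mul]
      congr 1
      rw [hθ]
      linear_combination (-2 * M * s) * hβ
  · rw [not_lt, div_le_iff₀ hM] at h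
    have c1 : mn y + β * s ≤ s := by
      have := mul_le_mul_of_nonneg_left h b0.le
      rw [← mul_assoc β (M + 1), hβ, mul_comm s, ← mul_assoc, eβ] at this
      linarith
    have c2 : ¬ ∀ j, j ≠ k → x k < x j := fun hh => by
      have := hh _ (k.succAbove_ne i0)
      rw [xk, xi, hi0] at this; linarith
    have c3 : mn x = mn y + β * s := by
      rw [← hi0, ← xi]
      refine mn_eq x _ ?_
      rw [k.forall_iff_succAbove]
      refine ⟨by rw [xk, xi, hi0]; exact c1, fun j => ?_⟩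
      rw [xi, xi, hi0]; linarith [mn_le y j]
    have e0 : (M + 1) * (β * s) = s := by rw [← mul_assoc, mul_comm (M + 1), hβ, one_mul]
    rw [← ENNReal.ofReal_mul b0.le]
    refine ENNReal.ofReal_le_ofReal ?_
    refine Fh_bound b0.le t0 hL x k y b0.le (by rw [c3]; ring) (by positivity) (fun i hi => ?_) ?_
    · rw [xi, c3] at hi ⊢
      refine ⟨max_le (by linarith) ?_, le_max_of_le_left (by linarith)⟩
      rw [div_le_iff₀ hM2]
      have := mul_le_mul_of_nonneg_left hi (by linarith : 0 ≤ M + 1)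
      have d2 : (M + 1) * mn y ≤ M * mn y + M * β * s := by
        rw [mul_comm M β, eβ]; linarith
      nlinarith
    · have c4 : s - (mn y + β * s) ≤ M * (mn y + β * s) := by nlinarith
      rw [om, if_neg c2, tm, er, xk, c3, if_pos c4, mul_assoc, mul_assoc, ← Real.exp_add,
        ← Real.exp_add]
      congr 2
      rw [hθ]
      linear_combination (-2 * M * (mn y + β * s)) * hβ

theorem ray (hM : 0 < M) (hβ : β * (M + 1) = 1) (hθ : θ = 2 * M * β) (hL : 0 ≤ L)
    (hm : M = m + 2) (k : Fin (m + 2)) (y : Fin (m + 1) → ℝ) (hy : ∀ i, 0 ≤ y i) :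
    ENNReal.ofReal M⁻¹ * ENNReal.ofReal (1 - 2 * Real.exp (-L) - β * L) ≤
    ∫⁻ s, (Ici 0).indicator (fun s => ENNReal.ofReal
      (pp M β θ L (Fin.insertNth k s fun i => y i + β * s) k * Real.exp (-(θ * s)))) s := by
  have b0 : 0 < β := by
    by_contra h
    nlinarith
  have t0 : 0 < θ := by rw [hθ]; positivity
  have hI := hi_Fh (M := M) (β := β) t0 hL y
  have e : 2 * (1 / 1) - 2 * Real.exp (-L) * (1 / 1) - 1 / θ - β * ((m + 1 : ℕ) * (1 / θ)) -
      β * L = 1 - 2 * Real.exp (-L) - β * L := by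
    have : 1 / θ + β * ((m + 1 : ℕ) * (1 / θ)) = 1 := by
      field_simp
      rw [hθ]; push_cast
      rw [show (m : ℝ) = M - 2 by linarith]
      linear_combination -hβ
    linarith
  rw [e] at hI
  have m0 : 0 ≤ mn y := le_ciInf hy
  refine (mul_le_mul_right hI.le _).trans ?_
  rw [← cov (fun v => ENNReal.ofReal (Fh M β θ L y v)) hI.1.ennreal_ofReal hM b0 (mn y)
    ((M + 1) * mn y / M) (by field_simp; linear_combination (-mn y) * hβ)]
  refine lintegral_mono fun s => ?_
  by_cases hs : 0 ≤ s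
  · rw [indicator_of_mem (show s ∈ Ici 0 from hs)]
    exact ray_pt hM hβ hθ hL k y hy hs
  · have h1 : s < (M + 1) * mn y / M := (not_le.1 hs).trans_le (by positivity)
    simp only [if_pos h1]
    rw [ENNReal.ofReal_of_nonpos (Fh_neg b0.le y (mul_neg_of_pos_of_neg hM (not_le.1 hs)))]
    exact zero_le

theorem hall (hM : 0 < M) (hβ : β * (M + 1) = 1) (hθ : θ = 2 * M * β) (hL : 0 ≤ L)
    (hm : M = m + 2) {C : Set (Fin (m + 1) → ℝ)} {C' : Set (Fin (m + 2) → ℝ)}
    (hC : MeasurableSet C) (hC' : MeasurableSet C') (h0 : C ⊆ orth _)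
    (h : ∀ y ∈ C, ∀ s : ℝ, 0 ≤ s → ∀ k : Fin (m + 2),
      (Fin.insertNth k s fun i => y i + β * s) ∈ C') :
    ENNReal.ofReal (1 - 2 * Real.exp (-L) - β * L) * E C ≤ E C' := by
  have b0 : 0 < β := by
    by_contra h
    nlinarith
  let g : (Fin (m + 2) → ℝ) → ℝ≥0∞ :=
    C'.indicator fun x => ENNReal.ofReal (Real.exp (-∑ i, x i))
  let f : Fin (m + 2) → (Fin (m + 2) → ℝ) → ℝ≥0∞ := fun k x => ENNReal.ofReal (pp M β θ L x k) * g x
  have hf : ∀ k, Measurable (f k) := fun k =>
    (meas_pp M β θ L k).ennreal_ofReal.mul (meas_dens hC')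
  have s1 : ∑ k, ∫⁻ x, f k x ≤ E C' := by
    rw [← lintegral_finsetSum _ fun k _ => hf k]
    refine lintegral_mono fun x => ?_
    simp only [f]
    rw [← Finset.sum_mul, ← ENNReal.ofReal_sum_of_nonneg fun k _ => pp_nonneg b0.le x k]
    exact mul_le_of_le_one_left' (ENNReal.ofReal_le_one.2 (sum_pp b0.le x))
  have s2 : ∀ k, ENNReal.ofReal M⁻¹ * ENNReal.ofReal (1 - 2 * Real.exp (-L) - β * L) * E C ≤
      ∫⁻ x, f k x := by
    intro k
    have e1 : ∀ s : ℝ, ∫⁻ u : Fin (m + 1) → ℝ, f k (Fin.insertNth k s u) =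
        ∫⁻ y : Fin (m + 1) → ℝ, f k (Fin.insertNth k s fun i => y i + β * s) := by
      intro s
      rw [← lintegral_add_right_eq_self _ (fun _ => β * s)]; rfl
    have mT : Measurable fun p : ℝ × (Fin (m + 1) → ℝ) =>
        (Fin.insertNth k p.1 (fun i => p.2 i + β * p.1) : Fin (m + 2) → ℝ) :=
      (meas_ins k).comp (f := fun p : ℝ × (Fin (m + 1) → ℝ) => (p.1, fun i => p.2 i + β * p.1))
        (by fun_prop)
    rw [fub k _ (hf k)]
    simp only [e1]
    rw [lintegral_lintegral_swap (by exact ((hf k).comp mT).aemeasurable), E,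
      ← lintegral_const_mul _ (meas_dens hC)]
    refine lintegral_mono fun y => ?_
    by_cases hy : y ∈ C
    · simp only [indicator_of_mem hy]
      refine (mul_le_mul_left (ray hM hβ hθ hL hm k y (h0 hy)) _).trans ?_
      rw [← lintegral_mul_const' _ _ ENNReal.ofReal_ne_top]
      refine lintegral_mono fun s => ?_
      by_cases hs : 0 ≤ s
      · simp only [f, g]
        rw [indicator_of_mem (show s ∈ Ici 0 from hs), indicator_of_mem (h y hy s hs k),
          ENNReal.ofReal_mul (pp_nonneg b0.le _ _), mul_assoc,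
          ← ENNReal.ofReal_mul (Real.exp_pos _).le, ← Real.exp_add, k.sum_univ_succAbove]
        refine le_of_eq ?_
        congr 3
        simp only [Fin.insertNth_apply_same, Fin.insertNth_apply_succAbove,
          Finset.sum_add_distrib, Finset.sum_const, Finset.card_univ, Fintype.card_fin,
          nsmul_eq_mul]
        push_cast
        rw [hθ, show (m : ℝ) = M - 2 by linarith]
        linear_combination (-s) * hβ
      · simp only [indicator_of_notMem (show s ∉ Ici 0 from hs), zero_mul]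
        exact zero_le
    · simp only [indicator_of_notMem hy, mul_zero]
      exact zero_le
  refine le_trans (le_of_eq ?_) ((Finset.sum_le_sum fun k _ => s2 k).trans s1)
  rw [Finset.sum_const, Finset.card_univ, Fintype.card_fin, nsmul_eq_mul, ← mul_assoc, ← mul_assoc,
    ← ENNReal.ofReal_natCast, ← ENNReal.ofReal_mul (Nat.cast_nonneg _)]
  push_cast
  rw [← hm, mul_inv_cancel₀ hM.ne', ENNReal.ofReal_one, one_mul]

end

end Pool.Agent.Lib.MP_14e6e2_co
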