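import Pool.Agent.Lib.MP_14e6e2_co.Hall

/-! The asymptotic comparison between a graph and its suspension. -/

open MeasureTheory Set
open scoped ENNReal

namespace Pool.Agent.Lib.MP_14e6e2_co

theorem E_le_one {m : ℕ} {C : Set (Fin m → ℝ)} (h : C ⊆ orth m) : E C ≤ 1 := by
  rw [← E_orth m]
  exact lintegral_mono fun x => indicator_le_indicator_of_subset h (fun _ => zero_le) x

variable {V : Type} [Fintype V] [DecidableEq V]

theorem main (G : SimpleGraph V) (n : ℕ) (hn : Fintype.card V = n) (h2 : 2 ≤ n) :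
    (1 - (1 + Real.log (2 * (n + 1))) / (n + 1)) * prop G ≤ prop (susp G) := by
  obtain ⟨d, rfl⟩ : ∃ d, n = d + 2 := ⟨n - 2, by omega⟩
  have hd' : Fintype.card (Option V) = (d + 1) + 2 := by rw [Fintype.card_option, hn]
  rw [prop_eq G hn, prop_eq (susp G) hd']
  set M : ℝ := ((d + 2 : ℕ) : ℝ) with hM
  have hm : M = d + 2 := by rw [hM]; push_cast; rfl
  have M0 : 0 < M := by rw [hm]; positivity
  have hβ : (M + 1)⁻¹ * (M + 1) = 1 := inv_mul_cancel₀ (by positivity)
  have hL : 0 ≤ Real.log (2 * (M + 1)) := Real.log_nonneg (by linarith)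
  have key := hall (m := d) (θ := 2 * M * (M + 1)⁻¹) M0 hβ rfl hL hm (measurable_cone G (d + 1))
    (measurable_cone (susp G) (d + 2)) (fun l hl => hl.1) (fun y hy s hs k => by
      have := cone_susp (m := d + 1) hn hy (c := (M + 1)⁻¹ * s) (by positivity) k
      rwa [show (((d + 1 : ℕ) : ℝ) + 2) * ((M + 1)⁻¹ * s) = s by
        rw [← mul_assoc, show ((d + 1 : ℕ) : ℝ) + 2 = M + 1 by rw [hm]; push_cast; ring,
          mul_comm (M + 1), hβ, one_mul]] at this)
  have e : 1 - 2 * Real.exp (-Real.log (2 * (M + 1))) - (M + 1)⁻¹ * Real.log (2 * (M + 1)) =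
      1 - (1 + Real.log (2 * (M + 1))) / (M + 1) := by
    rw [Real.exp_neg, Real.exp_log (by positivity)]
    field_simp; ring
  rw [e] at key
  have k2 := ENNReal.toReal_mono (ne_top_of_le_ne_top ENNReal.one_ne_top
    (E_le_one fun l hl => hl.1)) key
  rw [ENNReal.toReal_mul] at k2
  refine le_trans (mul_le_mul_of_nonneg_right ?_ ENNReal.toReal_nonneg) k2
  rw [ENNReal.toReal_ofReal']
  exact le_max_left _ _

end Pool.Agent.Lib.MP_14e6e2_co
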