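import Pool.Agent.Lib.MP_14e6e2_co.Spec

/-! The proportion of the simplex as a probability for independent exponential variables. -/

open MeasureTheory Set
open scoped ENNReal Pointwise

namespace Pool.Agent.Lib.MP_14e6e2_co

noncomputable def E {m : ℕ} (C : Set (Fin m → ℝ)) : ℝ≥0∞ :=
  ∫⁻ x, C.indicator (fun x => ENNReal.ofReal (Real.exp (-∑ i, x i))) x

theorem meas_ins {m : ℕ} (k : Fin (m + 1)) :
    Measurable fun p : ℝ × (Fin m → ℝ) => (Fin.insertNth k p.1 p.2 : Fin (m + 1) → ℝ) :=
  (MeasurableEquiv.piFinSuccAbove (fun _ => ℝ) k).symm.measurable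

theorem fub {m : ℕ} (k : Fin (m + 1)) (f : (Fin (m + 1) → ℝ) → ℝ≥0∞) (hf : Measurable f) :
    ∫⁻ x, f x = ∫⁻ s : ℝ, ∫⁻ u : Fin m → ℝ, f (Fin.insertNth k s u) := by
  rw [← (volume_preserving_piFinSuccAbove (fun _ => ℝ) k).symm.lintegral_comp hf,
    Measure.volume_eq_prod, lintegral_prod]
  · rfl
  · exact (hf.comp (meas_ins k)).aemeasurable

theorem meas_dens {m : ℕ} {C : Set (Fin m → ℝ)} (hC : MeasurableSet C) :
    Measurable (C.indicator fun x => ENNReal.ofReal (Real.exp (-∑ i, x i))) :=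
  Measurable.indicator (by fun_prop) hC

def orth (m : ℕ) : Set (Fin m → ℝ) := {x | ∀ i, 0 ≤ x i}

theorem meas_orth (m : ℕ) : MeasurableSet (orth m) := by
  have : orth m = pi univ fun _ => Ici 0 := by ext x; simp only [orth, mem_pi]; simp
  rw [this]; exact MeasurableSet.univ_pi fun _ => measurableSet_Ici

theorem int_exp (θ u : ℝ) (hθ : 0 < θ) :
    ∫⁻ v, (Ici u).indicator (fun v => ENNReal.ofReal (Real.exp (-(θ * (v - u))))) v =
      ENNReal.ofReal (1 / θ) := by
  rw [lintegral_indicator measurableSet_Ici, ← setLIntegral_congr Ioi_ae_eq_Ici]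
  have e : ∀ v, Real.exp (-(θ * (v - u))) = Real.exp (θ * u) * Real.exp (-θ * v) := by
    intro v; rw [← Real.exp_add]; congr 1; ring
  simp only [e]
  rw [← ofReal_integral_eq_lintegral_ofReal ((exp_neg_integrableOn_Ioi u hθ).const_mul _)
    (Filter.Eventually.of_forall fun v => by positivity), integral_const_mul,
    integral_exp_mul_Ioi (by linarith)]
  congr 1
  rw [show -θ * u = -(θ * u) by ring, Real.exp_neg]
  field_simp

theorem E_orth (m : ℕ) : E (orth m) = 1 := by
  induction m with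
  | zero =>
    have : orth 0 = univ := by ext x; simp [orth]
    simp [E, this, volume_pi]
  | succ m ih =>
    rw [E, fub 0 _ (meas_dens (meas_orth _))]
    have : ∀ (s : ℝ) (u : Fin m → ℝ), (orth (m + 1)).indicator
        (fun x => ENNReal.ofReal (Real.exp (-∑ i, x i))) (Fin.insertNth 0 s u) =
        (Ici (0 : ℝ)).indicator (fun v => ENNReal.ofReal (Real.exp (-(1 * (v - 0))))) s *
        (orth m).indicator (fun x => ENNReal.ofReal (Real.exp (-∑ i, x i))) u := by
      intro s u
      have h : (Fin.cons s u : Fin (m + 1) → ℝ) ∈ orth (m + 1) ↔ 0 ≤ s ∧ u ∈ orth m := by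
        simp [orth, Fin.forall_fin_succ]
      by_cases h1 : 0 ≤ s <;> by_cases h2 : u ∈ orth m <;>
        simp [indicator, h, h1, h2, Fin.sum_univ_succ, Real.exp_add, mul_comm,
          ← ENNReal.ofReal_mul (Real.exp_pos _).le]
    simp only [this]
    have h2 : ∀ c : ℝ≥0∞, ∫⁻ u : Fin m → ℝ, c *
        (orth m).indicator (fun x => ENNReal.ofReal (Real.exp (-∑ i, x i))) u = c := by
      intro c
      rw [lintegral_const_mul _ (meas_dens (meas_orth _))]
      change c * E _ = c
      rw [ih, mul_one]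
    simp only [h2]
    rw [int_exp 1 0 one_pos]; simp

/-- the chart of the hyperplane -/
def ch {d : ℕ} (r : ℝ) (t : Fin d → ℝ) : Fin (d + 1) → ℝ := Fin.insertNth 0 (r - ∑ i, t i) t

theorem meas_ch {d : ℕ} : Measurable fun p : ℝ × (Fin d → ℝ) => ch p.1 p.2 :=
  (meas_ins 0).comp (f := fun p : ℝ × (Fin d → ℝ) => (p.1 - ∑ i, p.2 i, p.2)) (by fun_prop)

theorem sum_ch {d : ℕ} (r : ℝ) (t : Fin d → ℝ) : ∑ i, ch r t i = r := by
  simp [ch, Fin.sum_univ_succ]

theorem ch_smul {d : ℕ} (r : ℝ) (t : Fin d → ℝ) : ch r (r • t) = r • ch 1 t := by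
  ext i
  refine Fin.cases ?_ (fun j => ?_) i
  · simp [ch, mul_sub, Finset.mul_sum]
  · simp [ch]

theorem polar {d : ℕ} {C : Set (Fin (d + 1) → ℝ)} (hC : MeasurableSet C) (h0 : C ⊆ orth _)
    (hs : ∀ l ∈ C, ∀ r : ℝ, 0 < r → r • l ∈ C) :
    E C = (∫⁻ r in Ioi (0 : ℝ), ENNReal.ofReal (Real.exp (-r)) * ENNReal.ofReal (r ^ d)) *
      volume {t | ch 1 t ∈ C} := by
  have hm := meas_dens hC
  rw [E, fub 0 _ hm, lintegral_lintegral_swap (by exact (hm.comp (meas_ins 0)).aemeasurable)]
  have e1 : ∀ u : Fin d → ℝ, ∫⁻ s : ℝ, C.indicator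
      (fun x => ENNReal.ofReal (Real.exp (-∑ i, x i))) (Fin.insertNth 0 s u) =
      ∫⁻ r : ℝ, C.indicator (fun x => ENNReal.ofReal (Real.exp (-∑ i, x i))) (ch r u) := by
    intro u
    rw [← lintegral_sub_right_eq_self _ (∑ i, u i)]; rfl
  simp only [e1]
  rw [← lintegral_lintegral_swap (f := fun (r : ℝ) (u : Fin d → ℝ) =>
      C.indicator (fun x => ENNReal.ofReal (Real.exp (-∑ i, x i))) (ch r u))
    (by exact (hm.comp meas_ch).aemeasurable), ← lintegral_mul_const',
    ← lintegral_indicator measurableSet_Ioi]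
  · refine lintegral_congr_ae ?_
    filter_upwards [compl_mem_ae_iff.2 (measure_singleton (0 : ℝ))] with r hr
    have hS : MeasurableSet {u : Fin d → ℝ | ch r u ∈ C} :=
      (meas_ch.comp (f := fun u => (r, u)) (by fun_prop)) hC
    have e2 : ∀ u : Fin d → ℝ, C.indicator (fun x => ENNReal.ofReal (Real.exp (-∑ i, x i)))
        (ch r u) = {u | ch r u ∈ C}.indicator (fun _ => ENNReal.ofReal (Real.exp (-r))) u := by
      intro u
      by_cases h : ch r u ∈ C <;> simp [indicator, h, sum_ch]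
    simp only [e2]
    rw [lintegral_indicator_const hS]
    rcases lt_or_gt_of_ne (show r ≠ 0 from hr) with h | h
    · have : {u : Fin d → ℝ | ch r u ∈ C} = ∅ := by
        refine eq_empty_of_forall_notMem fun u hu => ?_
        have := Finset.sum_nonneg fun i (_ : i ∈ Finset.univ) => h0 hu i
        rw [sum_ch] at this; linarith
      simp [this, indicator, h.le]
    · have : {u : Fin d → ℝ | ch r u ∈ C} = r • {t | ch 1 t ∈ C} := by
        ext u
        rw [mem_smul_set_iff_inv_smul_mem₀ h.ne']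
        have e : ch r u = r • ch 1 (r⁻¹ • u) := by
          rw [← ch_smul, smul_inv_smul₀ h.ne']
        simp only [mem_ofPred_eq]
        rw [e]
        refine ⟨fun hh => ?_, fun hh => hs _ hh r h⟩
        have := hs _ hh r⁻¹ (inv_pos.2 h)
        rwa [inv_smul_smul₀ h.ne'] at this
      rw [this, Measure.addHaar_smul, indicator_of_mem (show r ∈ Ioi 0 from h), mul_assoc]
      simp [abs_of_pos h]
  · refine ne_top_of_le_ne_top (b := volume (pi univ fun _ : Fin d => Icc (0 : ℝ) 1))
      (isCompact_univ_pi fun _ => isCompact_Icc).measure_lt_top.ne (measure_mono ?_)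
    intro t ht i _
    have a1 : ∀ j, 0 ≤ t j := fun j => by simpa [ch] using h0 ht j.succ
    have a2 : 0 ≤ 1 - ∑ j, t j := by simpa [ch] using h0 ht 0
    have := Finset.single_le_sum (f := t) (fun j _ => a1 j) (Finset.mem_univ i)
    exact ⟨a1 i, by linarith⟩

/-- the chart with values in Euclidean space -/
noncomputable def chE {d : ℕ} (t : Fin d → ℝ) : EuclideanSpace ℝ (Fin (d + 1)) :=
  WithLp.toLp 2 (ch 1 t)

theorem haus {d : ℕ} : ∃ c : ℝ≥0∞, c ≠ 0 ∧ c ≠ ⊤ ∧ ∀ T : Set (Fin d → ℝ), MeasurableSet T →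
    μH[(d : ℕ)] (chE '' T) = c * volume T := by
  let ψ : (Fin d → ℝ) →ₗ[ℝ] EuclideanSpace ℝ (Fin (d + 1)) :=
    { toFun := fun t => WithLp.toLp 2 (ch 0 t)
      map_add' := fun a b => by
        ext i
        refine Fin.cases ?_ (fun j => ?_) i
        · simp [ch, Finset.sum_add_distrib]; ring
        · simp [ch]
      map_smul' := fun r a => by
        ext i
        refine Fin.cases ?_ (fun j => ?_) i
        · simp [ch, Finset.mul_sum]
        · simp [ch] }
  have hψ : ∀ a t, chE (a + t) = ψ a + chE t := by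
    intro a t
    ext i
    refine Fin.cases ?_ (fun j => ?_) i
    · simp [ψ, chE, ch, Finset.sum_add_distrib]; ring
    · simp [ψ, chE, ch]
  let π : EuclideanSpace ℝ (Fin (d + 1)) →ₗ[ℝ] (Fin d → ℝ) :=
    { toFun := fun l j => l j.succ
      map_add' := fun a b => rfl
      map_smul' := fun r a => rfl }
  have hπ : ∀ t, π (chE t) = t := fun t => by ext j; simp [π, chE, ch]
  obtain ⟨K, hK⟩ : ∃ K, LipschitzWith K (chE (d := d)) := by
    refine ⟨_, LipschitzWith.of_dist_le_mul (K := ‖LinearMap.toContinuousLinearMap ψ‖₊)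
      fun a b => ?_⟩
    have : chE a - chE b = ψ (a - b) := by
      have := hψ (a - b) b
      rw [sub_add_cancel] at this
      rw [this, add_sub_cancel_right]
    rw [dist_eq_norm, dist_eq_norm, this]
    exact (LinearMap.toContinuousLinearMap ψ).le_opNorm _
  have hK' := (LinearMap.toContinuousLinearMap π).lipschitz
  have hemb : MeasurableEmbedding (chE (d := d)) :=
    hK.continuous.measurableEmbedding (Function.LeftInverse.injective hπ)
  let ν : Measure (Fin d → ℝ) := Measure.comap chE μH[(d : ℕ)]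
  have hν : ∀ T, ν T = μH[(d : ℕ)] (chE '' T) := fun T => hemb.comap_apply _ _
  have hv : (μH[(d : ℕ)] : Measure (Fin d → ℝ)) = volume := by
    have := hausdorffMeasure_pi_real (ι := Fin d)
    rwa [Fintype.card_fin] at this
  have i1 : IsFiniteMeasureOnCompacts ν := ⟨fun T hT => by
    rw [hν]
    refine (hK.hausdorffMeasure_image_le (Nat.cast_nonneg d) T).trans_lt ?_
    rw [hv]
    exact ENNReal.mul_lt_top (ENNReal.rpow_lt_top_of_nonneg (Nat.cast_nonneg d) (by simp))
      hT.measure_lt_top⟩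
  have i2 : ν.IsAddLeftInvariant := ⟨fun a => by
    ext T hT
    rw [Measure.map_apply (measurable_const_add a) hT, hν, hν]
    have : chE '' T = (IsometryEquiv.addLeft (ψ a)) '' (chE '' ((fun x => a + x) ⁻¹' T)) := by
      ext l
      constructor
      · rintro ⟨t, ht, rfl⟩
        refine ⟨chE (t - a), ⟨t - a, by simpa using ht, rfl⟩, ?_⟩
        change ψ a + chE (t - a) = _
        rw [← hψ]; simp
      · rintro ⟨_, ⟨t, ht, rfl⟩, rfl⟩
        exact ⟨a + t, ht, hψ a t⟩
    rw [this, IsometryEquiv.hausdorffMeasure_image]⟩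
  have h := Measure.isAddLeftInvariant_eq_smul ν volume
  refine ⟨(Measure.addHaarScalarFactor ν volume : ℝ≥0∞), ?_, by simp, fun T _ => ?_⟩
  · intro h0
    have h1 : ν univ = 0 := by
      rw [h, Measure.smul_apply, ENNReal.smul_def, h0]; simp
    have h2 := hK'.hausdorffMeasure_image_le (Nat.cast_nonneg d) (chE '' univ)
    rw [← hν, h1, mul_zero, hv] at h2
    have h3 : (LinearMap.toContinuousLinearMap π) '' (chE '' univ) = univ := by
      refine eq_univ_of_forall fun t => ⟨chE t, ⟨t, trivial, rfl⟩, hπ t⟩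
    rw [h3] at h2
    exact (isOpen_univ.measure_pos (μ := volume) univ_nonempty).not_ge h2
  · rw [← hν]
    exact congrArg (fun μ : Measure (Fin d → ℝ) => μ T) h

theorem img_ch {d : ℕ} (C : Set (Fin (d + 1) → ℝ)) :
    chE '' {t | ch 1 t ∈ C} = {l | (∑ i, l i = 1) ∧ (fun i => l i) ∈ C} := by
  ext l
  constructor
  · rintro ⟨t, ht, rfl⟩
    exact ⟨sum_ch 1 t, ht⟩
  · rintro ⟨h1, h2⟩
    have : ch 1 (fun j => l j.succ) = fun i => l i := by
      ext i
      refine Fin.cases ?_ (fun j => ?_) i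
      · rw [Fin.sum_univ_succ] at h1
        simp [ch]; linarith
      · simp [ch]
    refine ⟨fun j => l j.succ, by simpa [this] using h2, ?_⟩
    simp [chE, this]

variable {V : Type} [Fintype V] [DecidableEq V]

theorem prop_eq (G : SimpleGraph V) {d : ℕ} (hd : Fintype.card V = d + 2) :
    prop G = (E (cone G (d + 1))).toReal := by
  obtain ⟨c, c0, c1, hc⟩ := haus (d := d)
  have m1 : ∀ C : Set (Fin (d + 1) → ℝ), MeasurableSet C →
      MeasurableSet {t : Fin d → ℝ | ch 1 t ∈ C} := fun C hC =>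
    (meas_ch.comp (f := fun u => ((1 : ℝ), u)) (by fun_prop)) hC
  have e1 : realizable G (d + 1) = chE '' {t | ch 1 t ∈ cone G (d + 1)} := by
    rw [img_ch]; ext l; exact mem_realizable
  have e2 : simplex (d + 1) = chE '' {t | ch 1 t ∈ orth (d + 1)} := by
    rw [img_ch]; ext l; exact and_comm
  have p1 := polar (measurable_cone G (d + 1)) (fun l hl => hl.1)
    fun l hl r hr => cone_smul hd hl hr
  have p2 := polar (meas_orth (d + 1)) subset_rfl
    fun l hl r hr i => mul_nonneg hr.le (hl i)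
  rw [E_orth] at p2
  have key : ∀ n, Fintype.card V = n → prop G = (μH[(n - 2 : ℕ)] (realizable G (n - 1))).toReal /
      (μH[(n - 2 : ℕ)] (simplex (n - 1))).toReal := by
    rintro n rfl; rfl
  rw [key _ hd]
  change (μH[(d : ℕ)] (realizable G (d + 1))).toReal / (μH[(d : ℕ)] (simplex (d + 1))).toReal = _
  rw [e1, e2, hc _ (m1 _ (measurable_cone G _)), hc _ (m1 _ (meas_orth _)), p1]
  have p3 := congrArg ENNReal.toReal p2
  simp only [ENNReal.toReal_mul, ENNReal.toReal_one] at p3 ⊢
  have c2 : c.toReal ≠ 0 := (ENNReal.toReal_pos c0 c1).ne'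
  have c3 := right_ne_zero_of_mul (p3 ▸ one_ne_zero)
  rw [mul_div_mul_left _ _ c2, div_eq_iff c3, mul_right_comm, ← p3, one_mul]

end Pool.Agent.Lib.MP_14e6e2_co
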