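import Pool.Agent.Lib.MP_14e6e2_co.Polar

/-! One-dimensional integrals along a ray. -/

open MeasureTheory Set
open scoped ENNReal

namespace Pool.Agent.Lib.MP_14e6e2_co

noncomputable def er (θ u v : ℝ) : ℝ := if u ≤ v then Real.exp (-(θ * (v - u))) else 0

theorem er_nonneg (θ u v : ℝ) : 0 ≤ er θ u v := by
  unfold er; split_ifs
  · positivity
  · exact le_rfl

theorem er_le_one {θ : ℝ} (hθ : 0 ≤ θ) (u v : ℝ) : er θ u v ≤ 1 := by
  unfold er; split_ifs with h
  · exact Real.exp_le_one_iff.2 (by nlinarith)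
  · exact zero_le_one

theorem er_mono {θ : ℝ} (hθ : 0 ≤ θ) {u u' v : ℝ} (h : u ≤ v → u' ≤ v ∧ u ≤ u') :
    er θ u v ≤ er θ u' v := by
  by_cases h1 : u ≤ v
  · obtain ⟨a, b⟩ := h h1
    simp only [er, if_pos h1, if_pos a]
    exact Real.exp_le_exp.2 (by nlinarith)
  · simp only [er, if_neg h1]; exact er_nonneg θ u' v

theorem meas_er (θ : ℝ) : Measurable fun p : ℝ × ℝ => er θ p.1 p.2 :=
  Measurable.ite (measurableSet_le measurable_fst measurable_snd) (by fun_prop) measurable_const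

def HI (f : ℝ → ℝ) (c : ℝ) : Prop := Measurable f ∧ Integrable f ∧ ∫ v, f v = c

theorem HI.sub {f g : ℝ → ℝ} {a b : ℝ} (h : HI f a) (k : HI g b) :
    HI (fun v => f v - g v) (a - b) :=
  ⟨h.1.sub k.1, h.2.1.sub k.2.1, by rw [integral_sub h.2.1 k.2.1, h.2.2, k.2.2]⟩

theorem HI.mul {f : ℝ → ℝ} {a : ℝ} (h : HI f a) (c : ℝ) : HI (fun v => c * f v) (c * a) :=
  ⟨h.1.const_mul c, h.2.1.const_mul c, by rw [integral_const_mul, h.2.2]⟩

theorem HI.sum {m : ℕ} {f : Fin m → ℝ → ℝ} {a : ℝ} (h : ∀ i, HI (f i) a) :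
    HI (fun v => ∑ i, f i v) (m * a) :=
  ⟨Finset.measurable_sum _ fun i _ => (h i).1, integrable_finsetSum _ fun i _ => (h i).2.1, by
    rw [integral_finsetSum _ fun i _ => (h i).2.1]; simp [fun i => (h i).2.2]⟩

theorem HI.le {f : ℝ → ℝ} {a : ℝ} (h : HI f a) :
    ENNReal.ofReal a ≤ ∫⁻ v, ENNReal.ofReal (f v) := by
  rw [← h.2.2, integral_eq_lintegral_pos_part_sub_lintegral_neg_part h.2.1]
  exact (ENNReal.ofReal_le_ofReal (sub_le_self _ ENNReal.toReal_nonneg)).trans
    ENNReal.ofReal_toReal_le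

theorem hi_er {θ : ℝ} (hθ : 0 < θ) (u : ℝ) : HI (er θ u) (1 / θ) := by
  have hm : Measurable (er θ u) := (meas_er θ).comp (f := fun v => (u, v)) (by fun_prop)
  have e : ∫⁻ v, ENNReal.ofReal (er θ u v) = ENNReal.ofReal (1 / θ) := by
    rw [← int_exp θ u hθ]
    refine lintegral_congr fun v => ?_
    by_cases h : u ≤ v <;> simp [er, indicator, h]
  have h0 : 0 ≤ᵐ[volume] er θ u := Filter.Eventually.of_forall (er_nonneg θ u)
  refine ⟨hm, ⟨hm.aestronglyMeasurable, ?_⟩, ?_⟩
  · rw [hasFiniteIntegral_iff_ofReal h0, e]; exact ENNReal.ofReal_lt_top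
  · rw [integral_eq_lintegral_of_nonneg_ae h0 hm.aestronglyMeasurable, e,
      ENNReal.toReal_ofReal (by positivity)]

theorem hi_ind {L : ℝ} (hL : 0 ≤ L) : HI ((Icc 0 L).indicator fun _ => (1 : ℝ)) L :=
  ⟨measurable_const.indicator measurableSet_Icc,
    (integrable_indicator_iff measurableSet_Icc).2 (integrableOn_const (by simp)), by
    rw [integral_indicator measurableSet_Icc]; simp [hL]⟩

theorem aff (f : ℝ → ℝ≥0∞) (hf : Measurable f) {a : ℝ} (ha : 0 < a) (b : ℝ) :
    ∫⁻ s, f (b + a * s) = ENNReal.ofReal a⁻¹ * ∫⁻ v, f v := by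
  rw [← lintegral_add_left_eq_self f b,
    ← lintegral_map (f := fun v => f (b + v)) (hf.comp (by fun_prop)) (measurable_const_mul a),
    Real.map_volume_mul_left ha.ne', lintegral_smul_measure, abs_of_pos (inv_pos.2 ha)]
  rfl

theorem cov (f : ℝ → ℝ≥0∞) (hf : Measurable f) {M β : ℝ} (hM : 0 < M) (hβ : 0 < β) (μ s0 : ℝ)
    (h : s0 = μ + β * s0) :
    ∫⁻ s, (if s < s0 then f (M * s) else ENNReal.ofReal β * f (M * μ + M * β * s)) =
      ENNReal.ofReal M⁻¹ * ∫⁻ v, f v := by
  have m1 : Measurable ((Iio (M * s0)).indicator f) := hf.indicator measurableSet_Iio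
  have m2 : Measurable ((Iio (M * s0))ᶜ.indicator f) := hf.indicator measurableSet_Iio.compl
  have e : ∀ s, (if s < s0 then f (M * s) else ENNReal.ofReal β * f (M * μ + M * β * s)) =
      (Iio (M * s0)).indicator f (0 + M * s) +
        ENNReal.ofReal β * (Iio (M * s0))ᶜ.indicator f (M * μ + M * β * s) := by
    intro s
    have hMβ : 0 < M * β := mul_pos hM hβ
    have e0 : M * s0 = M * μ + M * β * s0 := by rw [mul_assoc, ← mul_add, ← h]
    by_cases hs : s < s0
    · have a1 : 0 + M * s ∈ Iio (M * s0) := by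
        simp only [mem_Iio]; nlinarith
      have a2 : M * μ + M * β * s ∉ (Iio (M * s0))ᶜ := by
        simp only [mem_compl_iff, mem_Iio, not_not]; nlinarith
      rw [if_pos hs, indicator_of_mem a1, indicator_of_notMem a2]; simp
    · have a1 : 0 + M * s ∉ Iio (M * s0) := by
        simp only [mem_Iio, not_lt] at hs ⊢; nlinarith
      have a2 : M * μ + M * β * s ∈ (Iio (M * s0))ᶜ := by
        simp only [mem_compl_iff, mem_Iio, not_lt] at hs ⊢; nlinarith
      rw [if_neg hs, indicator_of_mem a2, indicator_of_notMem a1]; simp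
  simp only [e]
  rw [lintegral_add_left (by exact m1.comp (by fun_prop)),
    lintegral_const_mul _ (by exact m2.comp (by fun_prop)),
    aff _ m1 hM, aff _ m2 (mul_pos hM hβ), ← mul_assoc, ← ENNReal.ofReal_mul hβ.le,
    show β * (M * β)⁻¹ = M⁻¹ by field_simp, ← mul_add, lintegral_indicator measurableSet_Iio,
    lintegral_indicator measurableSet_Iio.compl, lintegral_add_compl _ measurableSet_Iio]

end Pool.Agent.Lib.MP_14e6e2_co
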