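import Pool.Agent.Lib.MP_14e6e2_co.Defs

/-! The cone of realisable spectra, its measurability, and uniform weights on the new edges. -/

open MeasureTheory Polynomial Matrix

namespace Pool.Agent.Lib.MP_14e6e2_co

variable {V : Type} [Fintype V] [DecidableEq V]

def lap (w : Matrix V V ℝ) : Matrix V V ℝ := diagonal (fun u => ∑ v, w u v) - w

def Wt (G : SimpleGraph V) (w : Matrix V V ℝ) : Prop :=
  (∀ u v, 0 ≤ w u v) ∧ (∀ u v, w u v = w v u) ∧ ∀ u v, ¬ G.Adj u v → w u v = 0

/-- all realisable spectra, without normalisation -/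
def cone (G : SimpleGraph V) (m : ℕ) : Set (Fin m → ℝ) :=
  {l | (∀ i, 0 ≤ l i) ∧ ∃ w, Wt G w ∧ ∀ t : ℝ, (diagonal (fun _ => t) - lap w).det = t * ∏ i, (t - l i)}

theorem eval_char (A : Matrix V V ℝ) (t : ℝ) :
    A.charpoly.eval t = (diagonal (fun _ => t) - A).det := by
  rw [Matrix.eval_charpoly]; rfl

theorem char_iff {m : ℕ} (A : Matrix V V ℝ) (l : Fin m → ℝ) :
    A.charpoly = X * ∏ i, (X - C (l i)) ↔
      ∀ t : ℝ, (diagonal (fun _ => t) - A).det = t * ∏ i, (t - l i) := by
  constructor
  · intro h t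
    rw [← eval_char, h]; simp [eval_prod]
  · intro h
    apply Polynomial.funext
    intro t
    rw [eval_char, h]; simp [eval_prod]

theorem mem_realizable {G : SimpleGraph V} {m : ℕ} {l : EuclideanSpace ℝ (Fin m)} :
    l ∈ realizable G m ↔ (∑ i, l i = 1) ∧ (fun i => l i) ∈ cone G m := by
  constructor
  · rintro ⟨⟨h0, h1⟩, w, a, b, c, d⟩
    exact ⟨h1, h0, w, ⟨a, b, c⟩, (char_iff _ _).1 d⟩
  · rintro ⟨h1, h0, w, ⟨a, b, c⟩, d⟩
    exact ⟨⟨h0, h1⟩, w, a, b, c, (char_iff _ _).2 d⟩

theorem ext_of_ne {m : ℕ} (A : Matrix V V ℝ) (l : Fin m → ℝ) (c : ℝ)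
    (h : ∀ t : ℝ, t ≠ c → (diagonal (fun _ => t) - A).det = t * ∏ i, (t - l i)) :
    ∀ t : ℝ, (diagonal (fun _ => t) - A).det = t * ∏ i, (t - l i) := by
  rw [← char_iff]
  apply Polynomial.eq_of_infinite_eval_eq
  refine Set.Infinite.mono (s := {c}ᶜ) ?_ (Set.finite_singleton c).infinite_compl
  intro t ht
  have := h t ht
  simp only [Set.mem_ofPred_eq]
  rw [eval_char, this]; simp [eval_prod]

theorem cone_smul {G : SimpleGraph V} {m : ℕ} (hm : Fintype.card V = m + 1) {l : Fin m → ℝ}
    (hl : l ∈ cone G m) {r : ℝ} (hr : 0 < r) : r • l ∈ cone G m := by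
  obtain ⟨h0, w, ⟨a, b, c⟩, d⟩ := hl
  refine ⟨fun i => mul_nonneg hr.le (h0 i), r • w, ⟨fun u v => mul_nonneg hr.le (a u v),
    fun u v => by simp [b u v], fun u v h => by simp [c u v h]⟩, fun t => ?_⟩
  have e : diagonal (fun _ => t) - lap (r • w) = r • (diagonal (fun _ => t / r) - lap w) := by
    ext u v
    by_cases h : u = v
    · subst h
      simp [lap, Finset.mul_sum, mul_sub, mul_div_cancel₀ _ hr.ne']
    · simp [lap, h]
  rw [e, det_smul, d, hm, pow_succ']
  have : ∏ i, (t - (r • l) i) = ∏ i : Fin m, (r * (t / r - l i)) := by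
    refine Finset.prod_congr rfl fun i _ => ?_
    simp [mul_sub, mul_div_cancel₀ _ hr.ne']
  rw [this, Finset.prod_mul_distrib]
  simp only [Finset.prod_const, Finset.card_univ, Fintype.card_fin]
  field_simp

theorem measurable_cone (G : SimpleGraph V) (m : ℕ) : MeasurableSet (cone G m) := by
  let K : ℕ → Set ((Fin m → ℝ) × (V → V → ℝ)) := fun r =>
    (Set.pi Set.univ (fun _ => Set.Icc 0 (r : ℝ)) ×ˢ
      Set.pi Set.univ (fun _ => Set.pi Set.univ fun _ => Set.Icc 0 (r : ℝ))) ∩
    {p | (∀ u v, p.2 u v = p.2 v u) ∧ (∀ u v, ¬ G.Adj u v → p.2 u v = 0) ∧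
      ∀ t : ℝ, (diagonal (fun _ => t) - lap (of p.2)).det = t * ∏ i, (t - p.1 i)}
  have hK : ∀ r, IsCompact (K r) := by
    intro r
    refine IsCompact.inter_right (IsCompact.prod (isCompact_univ_pi fun _ => isCompact_Icc)
      (isCompact_univ_pi fun _ => isCompact_univ_pi fun _ => isCompact_Icc)) ?_
    simp only [Set.ofPred_and, Set.ofPred_forall]
    refine IsClosed.inter (isClosed_iInter fun u => isClosed_iInter fun v =>
      isClosed_eq (by fun_prop) (by fun_prop)) (IsClosed.inter (isClosed_iInter fun u =>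
      isClosed_iInter fun v => isClosed_iInter fun _ => isClosed_eq (by fun_prop) (by fun_prop))
      (isClosed_iInter fun t => isClosed_eq ?_ (by fun_prop)))
    refine Continuous.matrix_det (continuous_matrix fun u v => ?_)
    by_cases h : u = v
    · subst h
      simp only [lap, Matrix.sub_apply, diagonal_apply_eq, of_apply]
      fun_prop
    · simp only [lap, Matrix.sub_apply, diagonal_apply_ne _ h, of_apply]
      fun_prop
  have e : cone G m = ⋃ r, Prod.fst '' K r := by
    ext l
    simp only [Set.mem_iUnion]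
    constructor
    · rintro ⟨h0, w, ⟨a, b, c⟩, d⟩
      obtain ⟨r, hr⟩ := exists_nat_ge (∑ i, l i + ∑ u, ∑ v, w u v)
      have s1 : 0 ≤ ∑ i, l i := Finset.sum_nonneg fun i _ => h0 i
      have s2 : 0 ≤ ∑ u, ∑ v, w u v :=
        Finset.sum_nonneg fun u _ => Finset.sum_nonneg fun v _ => a u v
      refine ⟨r, (l, fun u v => w u v), ⟨⟨fun i _ => ⟨h0 i, ?_⟩, fun u _ v _ => ⟨a u v, ?_⟩⟩,
        b, c, d⟩, rfl⟩
      · have := Finset.single_le_sum (f := l) (fun i _ => h0 i) (Finset.mem_univ i)
        dsimp only; linarith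
      · have t1 := Finset.single_le_sum (f := fun v => w u v) (fun v _ => a u v) (Finset.mem_univ v)
        have t2 := Finset.single_le_sum (f := fun u => ∑ v, w u v)
          (fun u _ => Finset.sum_nonneg fun v _ => a u v) (Finset.mem_univ u)
        dsimp only at t1 t2 ⊢; linarith
    · rintro ⟨r, ⟨l', w⟩, ⟨⟨h0, h1⟩, b, c, d⟩, rfl⟩
      exact ⟨fun i => (h0 i trivial).1, of w, ⟨fun u v => (h1 u trivial v trivial).1, b, c⟩, d⟩
  rw [e]
  exact MeasurableSet.iUnion fun r => ((hK r).image continuous_fst).isClosed.measurableSet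

/-- the weighting of the suspension -/
def coneW (w : Matrix V V ℝ) (c : ℝ) : Matrix (Option V) (Option V) ℝ := fun a b =>
  match a, b with
  | some u, some v => w u v
  | none, none => 0
  | _, _ => c

theorem det_coneW (w : Matrix V V ℝ) (hw : ∀ u v, w u v = w v u) (c t : ℝ) (ht : t ≠ c) :
    (diagonal (fun _ => t) - lap (coneW w c)).det * (t - c) =
      (diagonal (fun _ => t - c) - lap w).det * (t * (t - (Fintype.card V + 1) * c)) := by
  have htc : t - c ≠ 0 := sub_ne_zero.2 ht
  set B : Matrix V V ℝ := diagonal (fun _ => t - c) - lap w with hB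
  have hB1 : ∀ u, ∑ v, B u v = t - c := by
    intro u
    simp [hB, lap, Finset.sum_sub_distrib, diagonal_apply]
  let e := Equiv.optionEquivSumPUnit.{0} V
  have e1 : (diagonal (fun _ => t) - lap (coneW w c)) = (fromBlocks B (of fun _ _ => c)
      (of fun _ _ => c) (of fun _ _ => t - Fintype.card V * c)).submatrix e e := by
    ext a b
    rcases a with _ | u <;> rcases b with _ | v
    · simp [lap, coneW, e, Fintype.sum_option]
    · simp [lap, coneW, e]
    · simp [lap, coneW, e]
    · by_cases h : u = v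
      · subst h
        simp [lap, coneW, e, hB, Fintype.sum_option]; ring
      · simp [lap, coneW, e, hB, h]
  have e2 : fromBlocks B (of fun _ _ => c) (of fun _ _ => c)
      (of fun (_ _ : PUnit.{1}) => t - Fintype.card V * c) *
      fromBlocks 1 (of fun _ _ => -(c / (t - c))) 0 1 =
      fromBlocks B 0 (of fun _ _ => c)
        (of fun _ _ => t * (t - (Fintype.card V + 1) * c) / (t - c)) := by
    rw [fromBlocks_multiply]
    congr 1
    · simp
    · ext u v
      simp only [Matrix.add_apply, mul_apply, of_apply, ← Finset.sum_mul, hB1, Matrix.zero_apply]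
      simp; field_simp; ring
    · simp
    · ext u v
      simp [mul_apply]; field_simp; ring
  have e3 := congrArg det e2
  rw [det_mul, det_fromBlocks_zero₂₁, det_fromBlocks_zero₁₂, det_one, det_one, mul_one,
    mul_one] at e3
  simp only [det_unique, of_apply] at e3
  rw [e1, det_submatrix_equiv_self, e3]
  field_simp

theorem cone_susp {G : SimpleGraph V} {m : ℕ} (hm : Fintype.card V = m + 1) {y : Fin m → ℝ}
    (hy : y ∈ cone G m) {c : ℝ} (hc : 0 ≤ c) (k : Fin (m + 1)) :
    Fin.insertNth k (((m : ℝ) + 2) * c) (fun i => y i + c) ∈ cone (susp G) (m + 1) := by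
  obtain ⟨h0, w, ⟨a, b, z⟩, d⟩ := hy
  refine ⟨?_, coneW w c, ⟨?_, ?_, ?_⟩, ext_of_ne _ _ c fun t ht => ?_⟩
  · rw [k.forall_iff_succAbove]
    refine ⟨by simp; positivity, fun i => by simp; linarith [h0 i]⟩
  · intro p q
    rcases p with _ | u <;> rcases q with _ | v <;> simp [coneW, hc, a]
  · intro p q
    rcases p with _ | u <;> rcases q with _ | v <;> simp [coneW, b]
  · intro p q h
    rcases p with _ | u <;> rcases q with _ | v
    · rfl
    · simp [susp] at h
    · simp [susp] at h
    · refine z u v fun hh => h ?_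
      simp only [susp, SimpleGraph.fromRel_adj]
      exact ⟨by simpa using hh.ne, Or.inl (Or.inr ⟨u, v, rfl, rfl, hh⟩)⟩
  · have htc : t - c ≠ 0 := sub_ne_zero.2 ht
    apply mul_right_cancel₀ htc
    rw [det_coneW w b c t ht, d, k.prod_univ_succAbove, hm]
    simp only [Fin.insertNth_apply_same, Fin.insertNth_apply_succAbove]
    have : ∀ i, t - (y i + c) = t - c - y i := fun i => by ring
    simp only [this]
    push_cast
    ring

end Pool.Agent.Lib.MP_14e6e2_co
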